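import Mathlib
import Pool.Agent.H33.G.R_seed8.Erdos456.LDich

set_option autoImplicit false

open Finset Filter Topology DirichletCharacter

namespace Pool.Agent.H316R2

open Pool.Agent.Erdos456

/-- the function `(log n)^i / n` is antitone beyond `exp i` -/
theorem lp_antitone (i : ℕ) {x y : ℝ} (hx : Real.exp i ≤ x) (hx1 : 1 < x) (hxy : x ≤ y) :
    (Real.log y) ^ i / y ≤ (Real.log x) ^ i / x := by
  have hx0 : 0 < x := by linarith
  have hy0 : 0 < y := by linarith
  have hlx : 0 < Real.log x := Real.log_pos hx1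
  have hix : (i : ℝ) ≤ Real.log x := by rwa [Real.le_log_iff_exp_le hx0]
  have hyx : 1 ≤ y / x := by rw [le_div_iff₀ hx0]; linarith
  have h1 : Real.log y = Real.log x * (1 + Real.log (y / x) / Real.log x) := by
    rw [Real.log_div hy0.ne' hx0.ne']
    field_simp
    ring
  have h0 : 0 ≤ Real.log (y / x) := Real.log_nonneg hyx
  have h2 : (1 + Real.log (y / x) / Real.log x) ^ i ≤ y / x := by
    calc (1 + Real.log (y / x) / Real.log x) ^ i
        ≤ (Real.exp (Real.log (y / x) / Real.log x)) ^ i := by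
          apply pow_le_pow_left₀ (by positivity)
          have := Real.add_one_le_exp (Real.log (y / x) / Real.log x)
          linarith
      _ = Real.exp (i * (Real.log (y / x) / Real.log x)) := by rw [← Real.exp_nat_mul]
      _ ≤ Real.exp (Real.log (y / x)) := by
          apply Real.exp_le_exp.mpr
          rw [← mul_div_assoc, div_le_iff₀ hlx, mul_comm]
          exact mul_le_mul_of_nonneg_left hix h0
      _ = y / x := Real.exp_log (by positivity)
  rw [h1, mul_pow, div_le_div_iff₀ hy0 hx0]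
  calc Real.log x ^ i * (1 + Real.log (y / x) / Real.log x) ^ i * x
      ≤ Real.log x ^ i * (y / x) * x := by gcongr
    _ = Real.log x ^ i * y := by field_simp

/-- a shifted Abel bound for characters -/
theorem char_tail {q : ℕ} [NeZero q] (χ : DirichletCharacter ℂ q) (hχ : χ ≠ 1) (g : ℕ → ℝ)
    (M : ℕ) (hg : ∀ m n, M < m → m ≤ n → g n ≤ g m) (hg0 : ∀ n, 0 ≤ g n) (N : ℕ) :
    ‖∑ n ∈ Ioc M N, χ (n : ZMod q) * (g n : ℂ)‖ ≤ 2 * q * g (M + 1) := by
  rcases Nat.lt_or_ge N M with h | h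
  · rw [Ioc_eq_empty (by omega), sum_empty, norm_zero]
    have := hg0 (M + 1)
    positivity
  obtain ⟨K, rfl⟩ := Nat.exists_eq_add_of_le h
  have e : ∑ n ∈ Ioc M (M + K), χ (n : ZMod q) * (g n : ℂ) =
      ∑ i ∈ range K, χ ((M + 1 + i : ℕ) : ZMod q) * (g (M + 1 + i) : ℂ) := by
    rw [show Ioc M (M + K) = Ico (M + 1) (M + 1 + K) by
      ext x; simp only [mem_Ioc, mem_Ico]; omega]
    rw [sum_Ico_eq_sum_range]
    simp
  rw [e]
  have := abel_bound (fun i => χ ((M + 1 + i : ℕ) : ZMod q)) (2 * q)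
    (fun n => norm_interval_le χ hχ (M + 1) n) (fun i => g (M + 1 + i))
    (fun a b hab => hg _ _ (by omega) (by omega)) (fun n => hg0 _) K
  simpa using this

theorem tail_lp (i : ℕ) : ∃ C : ℝ, 1 ≤ C ∧ ∀ (q : ℕ) [NeZero q] (χ : DirichletCharacter ℂ q),
    χ ≠ 1 → ∀ M N : ℕ, 1 ≤ M →
      ‖∑ n ∈ Ioc M N, χ (n : ZMod q) * (((Real.log n) ^ i / n : ℝ) : ℂ)‖ ≤
        C * q * (1 + Real.log M) ^ i / M := by
  obtain ⟨M0, hM0⟩ : ∃ M0 : ℕ, M0 = ⌈Real.exp i⌉₊ + 1 := ⟨_, rfl⟩
  have hM0e : Real.exp i ≤ M0 := by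
    rw [hM0]; push_cast
    have := Nat.le_ceil (Real.exp i)
    linarith
  have hM01 : 1 ≤ M0 := by omega
  have hlog1 : ∀ M : ℕ, 1 ≤ M → Real.log (M + 1 : ℕ) ≤ 1 + Real.log M := by
    intro M hM
    have hM' : (1:ℝ) ≤ M := by exact_mod_cast hM
    have : Real.log (M + 1 : ℕ) ≤ Real.log (M * Real.exp 1) := by
      apply Real.log_le_log (by positivity)
      push_cast
      have := Real.add_one_le_exp (1:ℝ)
      nlinarith
    rw [Real.log_mul (by positivity) (Real.exp_pos 1).ne', Real.log_exp] at this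
    linarith
  have hlognn : ∀ n : ℕ, 0 ≤ Real.log (n : ℝ) := fun n => Real.log_natCast_nonneg n
  -- large M
  have big : ∀ (q : ℕ) [NeZero q] (χ : DirichletCharacter ℂ q), χ ≠ 1 → ∀ M N : ℕ, M0 ≤ M →
      ‖∑ n ∈ Ioc M N, χ (n : ZMod q) * (((Real.log n) ^ i / n : ℝ) : ℂ)‖ ≤
        2 * q * (1 + Real.log M) ^ i / M := by
    intro q _ χ hχ M N hM
    have h := char_tail χ hχ (fun n => (Real.log n) ^ i / n) M (by
        intro m n hm hmn
        have hm0 : (M0 : ℝ) ≤ m := by exact_mod_cast (hM.trans hm.le)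
        have h1m : (1:ℝ) < m := by exact_mod_cast (show 1 < m by omega)
        exact lp_antitone i (hM0e.trans hm0) h1m (by exact_mod_cast hmn)) (by
        intro n; have := hlognn n; positivity) N
    refine h.trans ?_
    have hMpos : (1:ℝ) ≤ M := by exact_mod_cast hM01.trans hM
    rw [mul_div_assoc (2 * (q:ℝ))]
    apply mul_le_mul_of_nonneg_left _ (by positivity)
    have h1 := hlog1 M (hM01.trans hM)
    have h2 := hlognn (M + 1)
    show Real.log ((M + 1 : ℕ) : ℝ) ^ i / ((M + 1 : ℕ) : ℝ) ≤ _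
    apply div_le_div₀
    · have := hlognn M; positivity
    · exact pow_le_pow_left₀ h2 h1 i
    · linarith
    · push_cast; linarith
  have hM0r : (1:ℝ) ≤ M0 := by exact_mod_cast hM01
  set c : ℝ := M0 * (1 + Real.log M0) ^ i with hc
  have hbase : 1 ≤ (1 + Real.log M0) ^ i := one_le_pow₀ (by linarith [hlognn M0])
  have hc1 : 1 ≤ c := by rw [hc]; nlinarith
  refine ⟨(c + 2 * (1 + Real.log M0) ^ i) * M0 + 2, by nlinarith, ?_⟩
  intro q _ χ hχ M N hM
  have hq1 : (1:ℝ) ≤ q := by exact_mod_cast NeZero.one_le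
  have hMpos : (1:ℝ) ≤ M := by exact_mod_cast hM
  have hlm := hlognn M
  rcases Nat.lt_or_ge M M0 with hlt | hge
  · -- small M
    have split : ‖∑ n ∈ Ioc M N, χ (n : ZMod q) * (((Real.log n) ^ i / n : ℝ) : ℂ)‖ ≤
        c + 2 * q * (1 + Real.log M0) ^ i := by
      have hsub : ∑ n ∈ Ioc M N, χ (n : ZMod q) * (((Real.log n) ^ i / n : ℝ) : ℂ) =
          ∑ n ∈ (Ioc M N).filter (fun n => n ≤ M0), χ (n : ZMod q) * (((Real.log n) ^ i / n : ℝ) : ℂ) +
          ∑ n ∈ Ioc M0 N, χ (n : ZMod q) * (((Real.log n) ^ i / n : ℝ) : ℂ) := by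
        rw [← sum_filter_add_sum_filter_not (Ioc M N) (fun n => n ≤ M0)]
        congr 1
        apply sum_congr _ fun _ _ => rfl
        ext x; simp only [mem_filter, mem_Ioc]; omega
      rw [hsub]
      refine (norm_add_le _ _).trans (add_le_add ?_ ?_)
      · calc _ ≤ ∑ n ∈ (Ioc M N).filter (fun n => n ≤ M0), (1 + Real.log M0) ^ i := by
              refine (norm_sum_le _ _).trans (sum_le_sum ?_)
              intro n hn
              rw [mem_filter, mem_Ioc] at hn
              have hn1 : (1:ℝ) ≤ n := by exact_mod_cast (show 1 ≤ n by omega)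
              rw [norm_mul, Complex.norm_real, Real.norm_eq_abs]
              have h1 : ‖χ (n : ZMod q)‖ ≤ 1 := χ.norm_le_one _
              have h0 := hlognn n
              rw [abs_of_nonneg (by positivity)]
              have h2 : Real.log (n:ℝ) ≤ 1 + Real.log M0 := by
                have : Real.log (n:ℝ) ≤ Real.log M0 := Real.log_le_log (by linarith) (by exact_mod_cast hn.2)
                linarith
              have h3 : Real.log (n:ℝ) ^ i / n ≤ (1 + Real.log M0) ^ i := by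
                rw [div_le_iff₀ (by linarith)]
                have h4 : Real.log (n:ℝ) ^ i ≤ (1 + Real.log M0) ^ i := pow_le_pow_left₀ h0 h2 i
                nlinarith
              have h5 : 0 ≤ Real.log (n:ℝ) ^ i / n := by positivity
              calc ‖χ (n : ZMod q)‖ * (Real.log (n:ℝ) ^ i / n) ≤ 1 * (Real.log (n:ℝ) ^ i / n) := by gcongr
                _ ≤ _ := by rw [one_mul]; exact h3
          _ = ((Ioc M N).filter (fun n => n ≤ M0)).card * (1 + Real.log M0) ^ i := by
              rw [sum_const, nsmul_eq_mul]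
          _ ≤ M0 * (1 + Real.log M0) ^ i := by
              gcongr
              calc ((Ioc M N).filter (fun n => n ≤ M0)).card ≤ (Icc 1 M0).card := by
                    apply card_le_card
                    intro x hx
                    rw [mem_filter, mem_Ioc] at hx
                    rw [mem_Icc]; omega
                _ = M0 := by simp
      · refine (big q χ hχ M0 N le_rfl).trans ?_
        apply div_le_self (by positivity) hM0r
    refine split.trans ?_
    have h1 : (1:ℝ) ≤ (1 + Real.log M) ^ i := one_le_pow₀ (by linarith)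
    rw [le_div_iff₀ (by linarith)]
    have hMM : (M:ℝ) ≤ M0 := by exact_mod_cast hlt.le
    have hcq : c + 2 * q * (1 + Real.log M0) ^ i ≤ q * (c + 2 * (1 + Real.log M0) ^ i) := by nlinarith
    calc (c + 2 * q * (1 + Real.log M0) ^ i) * M ≤ q * (c + 2 * (1 + Real.log M0) ^ i) * M0 := by
          gcongr
      _ = ((c + 2 * (1 + Real.log M0) ^ i) * M0) * q * 1 := by ring
      _ ≤ ((c + 2 * (1 + Real.log M0) ^ i) * M0 + 2) * q * (1 + Real.log M) ^ i := by
          gcongr
          linarith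
  · refine (big q χ hχ M N hge).trans ?_
    gcongr
    have : 0 ≤ (c + 2 * (1 + Real.log M0) ^ i) * M0 := by positivity
    linarith

theorem tail_one {q : ℕ} [NeZero q] (χ : DirichletCharacter ℂ q) (hχ : χ ≠ 1) (N : ℕ) (hN : 1 ≤ N) :
    ‖∑ n ∈ Icc 1 N, χ (n : ZMod q) * (((1:ℝ) / n : ℝ) : ℂ) - LFunction χ 1‖ ≤ 2 * q / N := by
  have hNr : (1:ℝ) ≤ N := by exact_mod_cast hN
  -- bound for s > 1
  have h1 : ∀ s : ℝ, 1 < s → ‖∑ n ∈ Icc 1 N, χ (n : ZMod q) * (((n:ℝ) ^ (-s) : ℝ) : ℂ) -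
      LFunction χ (s:ℂ)‖ ≤ 2 * q / N := by
    intro s hs
    have hsum : Summable (fun n : ℕ => χ (n : ZMod q) * (((n : ℝ) ^ (-s) : ℝ) : ℂ)) := by
      have h := (Real.summable_nat_rpow (p := -s)).mpr (by linarith)
      refine Summable.of_norm_bounded h ?_
      intro n
      rw [norm_mul, Complex.norm_real, Real.norm_eq_abs, abs_of_nonneg (by positivity)]
      have h1 : ‖χ (n : ZMod q)‖ ≤ 1 := χ.norm_le_one _
      have h2 : 0 ≤ (n:ℝ) ^ (-s) := by positivity
      nlinarith
    have hval : LFunction χ (s:ℂ) = ∑' n : ℕ, χ (n : ZMod q) * (((n : ℝ) ^ (-s) : ℝ) : ℂ) := by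
      rw [LFun_eq χ hs]
      simp
    have hlim := hsum.hasSum.tendsto_sum_nat
    rw [← hval] at hlim
    have hlim2 : Tendsto (fun K : ℕ => ∑ n ∈ Icc 1 N, χ (n : ZMod q) * (((n:ℝ) ^ (-s) : ℝ) : ℂ) -
        ∑ i ∈ range K, χ (i : ZMod q) * (((i : ℝ) ^ (-s) : ℝ) : ℂ)) atTop
        (𝓝 (∑ n ∈ Icc 1 N, χ (n : ZMod q) * (((n:ℝ) ^ (-s) : ℝ) : ℂ) - LFunction χ (s:ℂ))) :=
      tendsto_const_nhds.sub hlim
    apply le_of_tendsto hlim2.norm
    filter_upwards [eventually_ge_atTop (N + 1)] with K hK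
    have e : ∑ i ∈ range K, χ (i : ZMod q) * (((i : ℝ) ^ (-s) : ℝ) : ℂ) =
        ∑ n ∈ Icc 1 N, χ (n : ZMod q) * (((n:ℝ) ^ (-s) : ℝ) : ℂ) +
        ∑ n ∈ Ioc N (K - 1), χ (n : ZMod q) * (((n:ℝ) ^ (-s) : ℝ) : ℂ) := by
      rw [← sum_union]
      · rw [← sum_subset (s₁ := Icc 1 N ∪ Ioc N (K - 1))]
        · intro x hx
          rw [mem_union, mem_Icc, mem_Ioc] at hx
          rw [mem_range]; omega
        · intro x hx hx2
          rw [mem_range] at hx
          rw [mem_union, mem_Icc, mem_Ioc] at hx2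
          have : x = 0 := by omega
          subst this
          have h00 : ((0:ℕ):ℝ) ^ (-s) = 0 := by rw [Nat.cast_zero, Real.zero_rpow (by linarith)]
          rw [h00]
          simp
      · rw [disjoint_left]
        intro x hx hx2
        rw [mem_Icc] at hx; rw [mem_Ioc] at hx2; omega
    rw [e, sub_add_cancel_left, norm_neg]
    refine (char_tail χ hχ (fun n => (n:ℝ) ^ (-s)) N (by
      intro m n hm hmn
      have hm0 : (0:ℝ) < m := by exact_mod_cast (show 0 < m by omega)
      exact Real.rpow_le_rpow_of_nonpos hm0 (by exact_mod_cast hmn) (by linarith)) (by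
      intro n; positivity) _).trans ?_
    have e3 : 2 * (q:ℝ) / N = 2 * q * (1 / N) := by ring
    rw [e3]
    apply mul_le_mul_of_nonneg_left _ (by positivity)
    have h3 : ((N + 1 : ℕ) : ℝ) ^ (-s) ≤ ((N + 1 : ℕ) : ℝ) ^ (-1 : ℝ) :=
      Real.rpow_le_rpow_of_exponent_le (by push_cast; linarith) (by linarith)
    rw [Real.rpow_neg_one] at h3
    refine h3.trans ?_
    rw [one_div]
    apply inv_anti₀ (by linarith)
    push_cast; linarith
  -- limit s → 1+
  have hc : Continuous (LFunction χ) := (differentiable_LFunction hχ).continuous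
  have hcont : ContinuousAt (fun s : ℝ => ∑ n ∈ Icc 1 N, χ (n : ZMod q) * (((n:ℝ) ^ (-s) : ℝ) : ℂ) -
      LFunction χ (s:ℂ)) 1 := by
    apply ContinuousAt.sub
    · apply tendsto_finsetSum
      intro n hn
      rw [mem_Icc] at hn
      have hn0 : (0:ℝ) < n := by exact_mod_cast (show 0 < n by omega)
      apply ContinuousAt.mul continuousAt_const
      apply Complex.continuous_ofReal.continuousAt.comp
      exact (Real.continuous_const_rpow hn0.ne').continuousAt.comp continuous_neg.continuousAt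
    · exact (hc.comp Complex.continuous_ofReal).continuousAt
  have hw : Tendsto (fun s : ℝ => ‖∑ n ∈ Icc 1 N, χ (n : ZMod q) * (((n:ℝ) ^ (-s) : ℝ) : ℂ) -
      LFunction χ (s:ℂ)‖) (𝓝[>] 1) (𝓝 ‖∑ n ∈ Icc 1 N, χ (n : ZMod q) * (((n:ℝ) ^ (-(1:ℝ)) : ℝ) : ℂ) -
      LFunction χ ((1:ℝ):ℂ)‖) := (hcont.tendsto.mono_left nhdsWithin_le_nhds).norm
  have hfin := le_of_tendsto hw (eventually_nhdsWithin_of_forall fun s hs => h1 s hs)
  have e2 : ∀ n : ℕ, ((n:ℝ) ^ (-(1:ℝ)) : ℝ) = (1:ℝ) / n := by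
    intro n; rw [Real.rpow_neg_one, one_div]
  simp only [e2, Complex.ofReal_one] at hfin
  exact hfin

end Pool.Agent.H316R2
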