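import Mathlib
import Pool.Agent.H33.G.R_seed8.H316R2.C1

set_option autoImplicit false

open Finset Filter Topology DirichletCharacter

namespace Pool.Agent.H316R2

open Pool.Agent.Erdos456

lemma hyperC {G : Type*} [AddCommMonoid G] (x : ℕ) (g : ℕ → ℕ → G) :
    ∑ n ∈ Icc 1 x, ∑ i ∈ n.divisorsAntidiagonal, g i.1 i.2 =
      ∑ c ∈ Icc 1 x, ∑ b ∈ Icc 1 (x / c), g b c := by
  rw [sum_sigma', sum_sigma']
  apply sum_nbij' (fun p => (⟨p.2.2, p.2.1⟩ : (_ : ℕ) × ℕ))
    (fun q => (⟨q.2 * q.1, (q.2, q.1)⟩ : (_ : ℕ) × (ℕ × ℕ)))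
  · rintro ⟨n, b, c⟩ hp
    simp only [mem_sigma, mem_Icc, Nat.mem_divisorsAntidiagonal] at hp ⊢
    obtain ⟨⟨h1, h2⟩, h3, h4⟩ := hp
    have hb : 0 < b := Nat.pos_of_ne_zero (by rintro rfl; simp at h3; omega)
    have hc : 0 < c := Nat.pos_of_ne_zero (by rintro rfl; simp at h3; omega)
    refine ⟨⟨hc, ?_⟩, hb, ?_⟩
    · have : c ≤ b * c := Nat.le_mul_of_pos_left c hb
      omega
    · rw [Nat.le_div_iff_mul_le hc]; omega
  · rintro ⟨c, b⟩ hp
    simp only [mem_sigma, mem_Icc, Nat.mem_divisorsAntidiagonal] at hp ⊢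
    obtain ⟨⟨h1, h2⟩, h3, h4⟩ := hp
    rw [Nat.le_div_iff_mul_le h1] at h4
    have : 0 < b * c := Nat.mul_pos h3 h1
    exact ⟨⟨this, h4⟩, trivial, this.ne'⟩
  · rintro ⟨n, b, c⟩ hp
    simp only [mem_sigma, mem_Icc, Nat.mem_divisorsAntidiagonal] at hp ⊢
    obtain ⟨⟨h1, h2⟩, h3, h4⟩ := hp
    subst h3
    rfl
  · rintro ⟨c, b⟩ hp
    rfl
  · rintro ⟨n, b, c⟩ hp
    rfl

/-- the sums over `n ≤ N` of `χ(n) (log n)^i / n` -/
noncomputable def SS {q : ℕ} (χ : DirichletCharacter ℂ q) (i N : ℕ) : ℂ :=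
  ∑ n ∈ Icc 1 N, χ (n : ZMod q) * (((Real.log n) ^ i / n : ℝ) : ℂ)

theorem SS_split {q : ℕ} (χ : DirichletCharacter ℂ q) (i : ℕ) {M N : ℕ} (h : M ≤ N) :
    SS χ i N = SS χ i M + ∑ n ∈ Ioc M N, χ (n : ZMod q) * (((Real.log n) ^ i / n : ℝ) : ℂ) := by
  unfold SS
  rw [← sum_union]
  · apply sum_congr _ fun _ _ => rfl
    ext x; simp only [mem_union, mem_Icc, mem_Ioc]; omega
  · rw [disjoint_left]
    intro x hx hx2
    rw [mem_Icc] at hx; rw [mem_Ioc] at hx2; omega

theorem log_pow_div_tendsto (i : ℕ) :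
    Tendsto (fun M : ℕ => (1 + Real.log M) ^ i / M) atTop (𝓝 0) := by
  have h1 := (Real.isLittleO_pow_log_id_atTop (n := i)).tendsto_div_nhds_zero
  have h2 : Tendsto (fun M : ℕ => Real.exp 1 * (M : ℝ)) atTop atTop :=
    Tendsto.const_mul_atTop (Real.exp_pos 1) tendsto_natCast_atTop_atTop
  have h3 := (h1.comp h2).const_mul (Real.exp 1)
  rw [mul_zero] at h3
  apply h3.congr'
  filter_upwards [eventually_ge_atTop 1] with M hM
  have hM' : (0:ℝ) < M := by exact_mod_cast hM
  simp only [Function.comp, id]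
  rw [Real.log_mul (Real.exp_pos 1).ne' hM'.ne', Real.log_exp]
  have := Real.exp_pos 1
  field_simp

theorem c_lim (i : ℕ) : ∃ C : ℝ, 1 ≤ C ∧ ∀ (q : ℕ) [NeZero q] (χ : DirichletCharacter ℂ q),
    χ ≠ 1 → ∃ l : ℂ, (i = 0 → l = LFunction χ 1) ∧ ‖l‖ ≤ C * (1 + Real.log q) ^ (i + 1) ∧
      ∀ N : ℕ, 1 ≤ N → ‖SS χ i N - l‖ ≤ C * q * (1 + Real.log N) ^ i / N := by
  obtain ⟨C, hC, hT⟩ := tail_lp i
  refine ⟨2 * C + 3, by linarith, ?_⟩
  intro q _ χ hχ
  have hq1 : (1:ℝ) ≤ q := by exact_mod_cast NeZero.one_le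
  -- existence of the limit with the tail bound
  obtain ⟨l, hl0, hl⟩ : ∃ l : ℂ, (i = 0 → l = LFunction χ 1) ∧ ∀ N : ℕ, 1 ≤ N →
      ‖SS χ i N - l‖ ≤ (C + 2) * q * (1 + Real.log N) ^ i / N := by
    rcases Nat.eq_zero_or_pos i with h0 | hpos
    · subst h0
      refine ⟨LFunction χ 1, fun _ => rfl, ?_⟩
      intro N hN
      have h := tail_one χ hχ N hN
      have hNr : (1:ℝ) ≤ N := by exact_mod_cast hN
      have e : SS χ 0 N = ∑ n ∈ Icc 1 N, χ (n : ZMod q) * (((1:ℝ) / n : ℝ) : ℂ) := by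
        unfold SS; simp
      rw [e, pow_zero, mul_one]
      refine h.trans ?_
      gcongr
      linarith
    · have key : ∀ a b : ℕ, 1 ≤ a → a ≤ b → ‖SS χ i b - SS χ i a‖ ≤ C * q * (1 + Real.log a) ^ i / a := by
        intro a b ha hab
        rw [SS_split χ i hab, add_sub_cancel_left]
        exact hT q χ hχ a b ha
      have hcau : CauchySeq (fun N => SS χ i (N + 1)) := by
        apply cauchySeq_of_le_tendsto_0 (fun M : ℕ => 2 * (C * q * ((1 + Real.log (M + 1 : ℕ)) ^ i / (M + 1 : ℕ))))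
        · intro n m N hn hm
          have k1 := key (N + 1) (n + 1) (by omega) (by omega)
          have k2 := key (N + 1) (m + 1) (by omega) (by omega)
          rw [dist_eq_norm]
          have e : SS χ i (n + 1) - SS χ i (m + 1) = (SS χ i (n + 1) - SS χ i (N + 1)) -
              (SS χ i (m + 1) - SS χ i (N + 1)) := by ring
          rw [e]
          refine (norm_sub_le _ _).trans ?_
          calc _ ≤ C * q * (1 + Real.log (N + 1 : ℕ)) ^ i / (N + 1 : ℕ) +
                C * q * (1 + Real.log (N + 1 : ℕ)) ^ i / (N + 1 : ℕ) := add_le_add k1 k2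
            _ = _ := by ring
        · have h1 := (log_pow_div_tendsto i).comp (tendsto_add_atTop_nat 1)
          have h2 := (h1.const_mul (C * q)).const_mul 2
          simp only [mul_zero] at h2
          exact h2
      obtain ⟨l, hl'⟩ := cauchySeq_tendsto_of_complete hcau
      have hl : Tendsto (fun N => SS χ i N) atTop (𝓝 l) := (tendsto_add_atTop_iff_nat 1).mp hl'
      refine ⟨l, fun h => by omega, ?_⟩
      intro N hN
      have hlim : Tendsto (fun K => SS χ i N - SS χ i K) atTop (𝓝 (SS χ i N - l)) :=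
        tendsto_const_nhds.sub hl
      apply le_of_tendsto hlim.norm
      filter_upwards [eventually_ge_atTop N] with K hK
      rw [SS_split χ i hK, sub_add_cancel_left, norm_neg]
      refine (hT q χ hχ N K hN).trans ?_
      have : 0 ≤ Real.log (N:ℝ) := Real.log_natCast_nonneg N
      gcongr
      linarith
  refine ⟨l, hl0, ?_, ?_⟩
  · have h1 := hl q (by exact_mod_cast hq1)
    have h0 : 0 ≤ Real.log (q:ℝ) := Real.log_natCast_nonneg q
    have h2 : ‖SS χ i q‖ ≤ (1 + Real.log q) ^ (i + 1) := by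
      unfold SS
      calc ‖∑ n ∈ Icc 1 q, χ (n : ZMod q) * (((Real.log n) ^ i / n : ℝ) : ℂ)‖
          ≤ ∑ n ∈ Icc 1 q, (1 + Real.log q) ^ i * (1 / (n:ℝ)) := by
            refine (norm_sum_le _ _).trans (sum_le_sum ?_)
            intro n hn
            rw [mem_Icc] at hn
            have hn1 : (1:ℝ) ≤ n := by exact_mod_cast hn.1
            rw [norm_mul, Complex.norm_real, Real.norm_eq_abs]
            have h1 : ‖χ (n : ZMod q)‖ ≤ 1 := χ.norm_le_one _
            have h0' : 0 ≤ Real.log (n:ℝ) := Real.log_natCast_nonneg n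
            rw [abs_of_nonneg (by positivity)]
            have h2 : Real.log (n:ℝ) ≤ 1 + Real.log q := by
              have : Real.log (n:ℝ) ≤ Real.log q := Real.log_le_log (by linarith) (by exact_mod_cast hn.2)
              linarith
            calc ‖χ (n : ZMod q)‖ * (Real.log (n:ℝ) ^ i / n) ≤ 1 * (Real.log (n:ℝ) ^ i / n) := by gcongr
              _ = Real.log (n:ℝ) ^ i * (1 / n) := by ring
              _ ≤ _ := by gcongr
        _ = (1 + Real.log q) ^ i * ∑ n ∈ Icc 1 q, (1 / (n:ℝ)) := by rw [mul_sum]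
        _ ≤ (1 + Real.log q) ^ i * (1 + Real.log q) := by
            have h := harmonic_le_one_add_log q
            rw [harmonic_eq_sum_Icc] at h
            push_cast at h
            have e : ∑ n ∈ Icc 1 q, (1 / (n:ℝ)) = ∑ n ∈ Icc 1 q, ((n:ℝ))⁻¹ := by simp
            rw [e]
            gcongr
        _ = _ := by rw [pow_succ]
    have h3 : ‖l‖ ≤ ‖SS χ i q‖ + ‖SS χ i q - l‖ := by
      have := norm_sub_le (SS χ i q) (SS χ i q - l)
      rwa [sub_sub_cancel] at this
    have h4 : (C + 2) * q * (1 + Real.log q) ^ i / q = (C + 2) * (1 + Real.log q) ^ i := by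
      field_simp
    rw [h4] at h1
    have h5 : (1 + Real.log q) ^ i ≤ (1 + Real.log q) ^ (i + 1) :=
      pow_le_pow_right₀ (by linarith) (by omega)
    have h6 : 0 ≤ (1 + Real.log q) ^ (i + 1) := by positivity
    have h7 : (C + 2) * (1 + Real.log q) ^ i ≤ (C + 2) * (1 + Real.log q) ^ (i + 1) := by gcongr
    nlinarith
  · intro N hN
    refine (hl N hN).trans ?_
    have : 0 ≤ Real.log (N:ℝ) := Real.log_natCast_nonneg N
    gcongr <;> linarith

/-- integer part of the exponential -/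
noncomputable def EE (u : ℝ) : ℕ := ⌊Real.exp u⌋₊

theorem EE_le (u : ℝ) : (EE u : ℝ) ≤ Real.exp u := Nat.floor_le (Real.exp_pos u).le

theorem EE_pos {u : ℝ} (hu : 0 ≤ u) : 1 ≤ EE u := by
  unfold EE
  rw [Nat.one_le_floor_iff]
  exact Real.one_le_exp hu

theorem EE_ge {u : ℝ} (hu : 0 ≤ u) : Real.exp u ≤ 2 * EE u := by
  have h1 : (1:ℝ) ≤ EE u := by exact_mod_cast EE_pos hu
  have h2 := Nat.lt_floor_add_one (Real.exp u)
  unfold EE at *
  linarith

theorem log_EE_le {u : ℝ} (hu : 0 ≤ u) : Real.log (EE u) ≤ u := by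
  have h1 : (1:ℝ) ≤ EE u := by exact_mod_cast EE_pos hu
  have := Real.log_le_log (by linarith) (EE_le u)
  rwa [Real.log_exp] at this

theorem EE_sub_log (u : ℝ) {d : ℕ} (hd : 1 ≤ d) : EE (u - Real.log d) = EE u / d := by
  unfold EE
  have hd' : (0:ℝ) < d := by exact_mod_cast hd
  rw [Real.exp_sub, Real.exp_log hd', Nat.floor_div_natCast]

theorem mem_EE {u : ℝ} {n : ℕ} (hn : n ∈ Icc 1 (EE u)) : 1 ≤ n ∧ Real.log n ≤ u := by
  rw [mem_Icc] at hn
  refine ⟨hn.1, ?_⟩
  have h1 : (0:ℝ) < n := by exact_mod_cast hn.1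
  have h2 : (n:ℝ) ≤ Real.exp u := le_trans (by exact_mod_cast hn.2) (EE_le u)
  rwa [Real.log_le_iff_le_exp h1]

theorem one_add_pow_le (k : ℕ) : ∃ C : ℝ, 1 ≤ C ∧ ∀ x : ℝ, 0 ≤ x → (1 + x) ^ k ≤ C * Real.exp (x / 2) := by
  refine ⟨2 ^ k * k.factorial * Real.exp 1, ?_, ?_⟩
  · have h1 : (1:ℝ) ≤ 2 ^ k := one_le_pow₀ (by norm_num)
    have h2 : (1:ℝ) ≤ k.factorial := by exact_mod_cast k.factorial_pos
    have h3 : (1:ℝ) ≤ Real.exp 1 := Real.one_le_exp (by norm_num)
    calc (1:ℝ) = 1 * 1 * 1 := by norm_num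
      _ ≤ _ := by gcongr
  · intro x hx
    have h1 := Real.pow_div_factorial_le_exp ((1 + x) / 2) (by positivity) k
    have h2 : (1 + x) ^ k = 2 ^ k * ((1 + x) / 2) ^ k := by
      rw [← mul_pow]; congr 1; ring
    rw [div_le_iff₀ (by positivity)] at h1
    calc (1 + x) ^ k = 2 ^ k * ((1 + x) / 2) ^ k := h2
      _ ≤ 2 ^ k * (Real.exp ((1 + x) / 2) * k.factorial) := by gcongr
      _ ≤ 2 ^ k * ((Real.exp 1 * Real.exp (x / 2)) * k.factorial) := by
          gcongr
          rw [← Real.exp_add]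
          apply Real.exp_le_exp.mpr
          linarith
      _ = _ := by ring

theorem vm_sqrt_sum (N : ℕ) : ∑ n ∈ Icc 1 N, ArithmeticFunction.vonMangoldt n / Real.sqrt n ≤
    12 * Real.sqrt N := by
  have hpsi : ∀ N : ℕ, ∑ n ∈ Icc 1 N, ArithmeticFunction.vonMangoldt n ≤ 6 * N := by
    intro N
    have h := Chebyshev.psi_le_const_mul_self (x := (N:ℝ)) (by positivity)
    have h2 : Chebyshev.psi (N:ℝ) = ∑ n ∈ Icc 1 N, ArithmeticFunction.vonMangoldt n := by
      unfold Chebyshev.psi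
      rw [Nat.floor_natCast]
      rfl
    rw [h2] at h
    have h3 : Real.log 4 ≤ 2 := by
      have : Real.log 4 = 2 * Real.log 2 := by
        rw [show (4:ℝ) = 2 ^ 2 by norm_num, Real.log_pow]; norm_num
      have := Real.log_two_lt_d9
      linarith
    have hN : (0:ℝ) ≤ N := Nat.cast_nonneg N
    nlinarith
  have key : ∀ N : ℕ, ∑ n ∈ Icc 1 N, ArithmeticFunction.vonMangoldt n / Real.sqrt n ≤
      (∑ n ∈ Icc 1 N, ArithmeticFunction.vonMangoldt n) / Real.sqrt N + 6 * Real.sqrt N := by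
    intro N
    induction N with
    | zero => simp
    | succ N ih =>
      rw [sum_Icc_succ_top (by omega), sum_Icc_succ_top (by omega)]
      set A := ∑ n ∈ Icc 1 N, ArithmeticFunction.vonMangoldt n / Real.sqrt n
      have hS := hpsi N
      set S := ∑ n ∈ Icc 1 N, ArithmeticFunction.vonMangoldt n with hSdef
      set a : ℝ := Real.sqrt ((N + 1 : ℕ) : ℝ) with ha
      set b : ℝ := Real.sqrt (N : ℝ) with hb
      have ha0 : 0 < a := Real.sqrt_pos.mpr (by positivity)
      have hb0 : 0 ≤ b := Real.sqrt_nonneg _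
      have hab : b ≤ a := Real.sqrt_le_sqrt (by push_cast; linarith)
      have hb2 : b * b = N := Real.mul_self_sqrt (Nat.cast_nonneg N)
      have hS0 : 0 ≤ S := sum_nonneg fun _ _ => ArithmeticFunction.vonMangoldt_nonneg
      rcases Nat.eq_zero_or_pos N with h0 | hpos
      · subst h0
        have hA : A = 0 := by simp [A]
        have hSz : S = 0 := by simp [S]
        rw [hA, hSz]
        have : 0 ≤ 6 * a := by positivity
        simp only [zero_add]
        linarith
      · have hb0' : 0 < b := Real.sqrt_pos.mpr (by exact_mod_cast hpos)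
        rw [add_div]
        have h1 : S / b - S / a ≤ 6 * (a - b) := by
          have e1 : S / b - S / a = S * (a - b) / (b * a) := by field_simp
          rw [e1, div_le_iff₀ (by positivity)]
          have h2 : 0 ≤ a - b := by linarith
          have h3 : (N:ℝ) ≤ b * a := by rw [← hb2]; gcongr
          calc S * (a - b) ≤ (6 * N) * (a - b) := by gcongr
            _ ≤ (6 * (b * a)) * (a - b) := by gcongr
            _ = _ := by ring
        linarith
  have h1 := key N
  have h2 := hpsi N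
  rcases Nat.eq_zero_or_pos N with h0 | hpos
  · subst h0; simp
  · have hb0' : 0 < Real.sqrt (N:ℝ) := Real.sqrt_pos.mpr (by exact_mod_cast hpos)
    have hb2 : Real.sqrt (N:ℝ) * Real.sqrt N = N := Real.mul_self_sqrt (Nat.cast_nonneg N)
    have h3 : (∑ n ∈ Icc 1 N, ArithmeticFunction.vonMangoldt n) / Real.sqrt N ≤ 6 * Real.sqrt N := by
      rw [div_le_iff₀ hb0']
      linarith
    linarith

theorem vm_conv (k : ℕ) : ∃ C : ℝ, 1 ≤ C ∧ ∀ u : ℝ, 0 ≤ u →
    ∑ d ∈ Icc 1 (EE u), ArithmeticFunction.vonMangoldt d / d *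
      ((1 + (u - Real.log d)) ^ k * Real.exp (-(u - Real.log d))) ≤ C := by
  obtain ⟨C, hC, h⟩ := one_add_pow_le k
  refine ⟨12 * C, by linarith, ?_⟩
  intro u hu
  have h1 : ∀ d ∈ Icc 1 (EE u), ArithmeticFunction.vonMangoldt d / d *
      ((1 + (u - Real.log d)) ^ k * Real.exp (-(u - Real.log d))) ≤
      C * Real.exp (-(u / 2)) * (ArithmeticFunction.vonMangoldt d / Real.sqrt d) := by
    intro d hd
    obtain ⟨hd1, hd2⟩ := mem_EE hd
    have hd0 : (0:ℝ) < d := by exact_mod_cast hd1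
    have hv : 0 ≤ ArithmeticFunction.vonMangoldt d := ArithmeticFunction.vonMangoldt_nonneg
    have h2 := h (u - Real.log d) (by linarith)
    have h3 : Real.exp ((u - Real.log d) / 2) * Real.exp (-(u - Real.log d)) =
        Real.exp (-(u / 2)) * Real.sqrt d := by
      rw [← Real.exp_add]
      have : Real.sqrt (d:ℝ) = Real.exp (Real.log d / 2) := by
        rw [Real.sqrt_eq_rpow, Real.rpow_def_of_pos hd0]; congr 1; ring
      rw [this, ← Real.exp_add]
      congr 1; ring
    calc ArithmeticFunction.vonMangoldt d / d *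
          ((1 + (u - Real.log d)) ^ k * Real.exp (-(u - Real.log d)))
        ≤ ArithmeticFunction.vonMangoldt d / d *
          ((C * Real.exp ((u - Real.log d) / 2)) * Real.exp (-(u - Real.log d))) := by gcongr
      _ = C * (ArithmeticFunction.vonMangoldt d / d *
          (Real.exp ((u - Real.log d) / 2) * Real.exp (-(u - Real.log d)))) := by ring
      _ = C * Real.exp (-(u / 2)) * (ArithmeticFunction.vonMangoldt d * (Real.sqrt d / d)) := by
          rw [h3]; ring
      _ = _ := by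
          rw [Real.sqrt_div_self']
          ring
  refine (sum_le_sum h1).trans ?_
  rw [← mul_sum]
  have h4 := vm_sqrt_sum (EE u)
  have h5 : Real.sqrt (EE u) ≤ Real.exp (u / 2) := by
    have : Real.exp (u / 2) = Real.sqrt (Real.exp u) := by
      rw [Real.sqrt_eq_rpow, ← Real.exp_mul]; congr 1; ring
    rw [this]
    exact Real.sqrt_le_sqrt (EE_le u)
  calc _ ≤ C * Real.exp (-(u / 2)) * (12 * Real.exp (u / 2)) := by
        gcongr
        linarith
    _ = 12 * C * (Real.exp (-(u / 2)) * Real.exp (u / 2)) := by ring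
    _ = 12 * C := by rw [← Real.exp_add]; simp

end Pool.Agent.H316R2
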